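import Mathlib

set_option autoImplicit false

/-!
MP_7c9306_co, part 2: the blocks.  `U k = (ZMod 2)^k`, blocks are indexed by `U k × ZMod 2`.
-/

namespace Pool.Agent.MP_7c9306

open Finset

/-- The sign character of `ZMod 2`. -/
def sg (z : ZMod 2) : ℤ := if z = 0 then 1 else -1

lemma sg_add (a b : ZMod 2) : sg (a + b) = sg a * sg b := by
  revert a b; decide

lemma sg_zero : sg 0 = 1 := by decide

lemma sg_one : sg 1 = -1 := by decide

lemma sg_sq (a : ZMod 2) : sg a * sg a = 1 := by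
  revert a; decide

/-- Vectors over `ZMod 2`. -/
abbrev U (k : ℕ) : Type := Fin k → ZMod 2

lemma u_add_self {k : ℕ} (x : U k) : x + x = 0 := by
  funext i
  have : ∀ a : ZMod 2, a + a = 0 := by decide
  exact this (x i)

lemma u_add_eq_zero {k : ℕ} (x y : U k) : x + y = 0 ↔ x = y := by
  constructor
  · intro h
    have : x + y + y = 0 + y := by rw [h]
    rwa [add_assoc, u_add_self, add_zero, zero_add] at this
  · rintro rfl
    exact u_add_self x

lemma card_U (k : ℕ) : Fintype.card (U k) = 2 ^ k := by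
  simp [U]

/-- Character sum. -/
lemma sum_sg {k : ℕ} (u : U k) : ∑ y : U k, sg (y ⬝ᵥ u) = if u = 0 then (2 : ℤ) ^ k else 0 := by
  by_cases hu : u = 0
  · subst hu
    simp [sg_zero]
  · rw [if_neg hu]
    obtain ⟨i, hi⟩ : ∃ i, u i ≠ 0 := by
      by_contra h
      push Not at h
      exact hu (funext h)
    have hi1 : u i = 1 := by
      have : ∀ a : ZMod 2, a ≠ 0 → a = 1 := by decide
      exact this _ hi
    have hs : ∑ y : U k, sg (y ⬝ᵥ u) = ∑ y : U k, sg ((Pi.single i 1 + y) ⬝ᵥ u) :=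
      (Equiv.sum_comp (Equiv.addLeft (Pi.single i (1 : ZMod 2) : U k))
        (fun y => sg (y ⬝ᵥ u))).symm
    have h2 : ∑ y : U k, sg ((Pi.single i 1 + y) ⬝ᵥ u) = - ∑ y : U k, sg (y ⬝ᵥ u) := by
      rw [← Finset.sum_neg_distrib]
      apply Finset.sum_congr rfl
      intro y _
      rw [add_dotProduct, sg_add, single_dotProduct, one_mul, hi1, sg_one]
      ring
    rw [h2] at hs
    linarith

lemma sum_sg' {k : ℕ} (u : U k) : ∑ y : U k, sg (u ⬝ᵥ y) = if u = 0 then (2 : ℤ) ^ k else 0 := by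
  rw [← sum_sg u]
  apply Finset.sum_congr rfl
  intro y _
  rw [dotProduct_comm]

/-- The second factor of a block entry. -/
def hh {k : ℕ} (b : ZMod 2) (r : U k) : ℤ := if r = 0 then -1 else sg b

/-- The block with label `L`. -/
def fb {k : ℕ} (L : U k × ZMod 2) (x : U k × U k) : ℤ :=
  sg (x.1 ⬝ᵥ (x.2 + L.1)) * hh L.2 (x.2 + L.1)

lemma hh_mul {k : ℕ} (b b' : ZMod 2) (r : U k) :
    hh b r * hh b' r = if r = 0 then 1 else sg (b + b') := by
  unfold hh
  by_cases h : r = 0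
  · simp [h]
  · simp [h, sg_add]

lemma fb_pm {k : ℕ} (L : U k × ZMod 2) (x : U k × U k) : fb L x = 1 ∨ fb L x = -1 := by
  have h1 : ∀ a : ZMod 2, sg a = 1 ∨ sg a = -1 := by decide
  unfold fb hh
  rcases h1 (x.1 ⬝ᵥ (x.2 + L.1)) with h | h
  · rw [h]
    by_cases h0 : x.2 + L.1 = 0
    · simp [h0]
    · rcases h1 L.2 with h2 | h2 <;> simp [h0, h2]
  · rw [h]
    by_cases h0 : x.2 + L.1 = 0
    · simp [h0]
    · rcases h1 L.2 with h2 | h2 <;> simp [h0, h2]

/-- The block sum. -/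
lemma fb_sum {k : ℕ} (L : U k × ZMod 2) (x : U k × U k) :
    ∑ y : U k × U k, fb L (x + y) = - (2 : ℤ) ^ k := by
  have h0 : ∑ y : U k × U k, fb L (x + y) = ∑ y : U k × U k, fb L y :=
    Equiv.sum_comp (Equiv.addLeft x) (fun y => fb L y)
  rw [h0, Fintype.sum_prod_type_right]
  have h1 : ∀ y2 : U k, ∑ y1 : U k, fb L (y1, y2)
      = (if y2 + L.1 = 0 then (2 : ℤ) ^ k else 0) * hh L.2 (y2 + L.1) := by
    intro y2
    unfold fb
    dsimp only
    rw [← Finset.sum_mul, sum_sg]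
  simp only [h1]
  rw [Finset.sum_eq_single L.1]
  · rw [u_add_self]; simp [hh]
  · intro b _ hb
    rw [if_neg (fun h => hb ((u_add_eq_zero b L.1).mp h)), zero_mul]
  · intro h; exact absurd (mem_univ _) h

/-- Sum over `r`. -/
lemma sum_r {k : ℕ} (v : U k) (σ : ℤ) :
    ∑ r : U k, sg (v ⬝ᵥ r) * (if r = 0 then 1 else σ)
      = 1 + σ * ((if v = 0 then (2 : ℤ) ^ k else 0) - 1) := by
  have h1 : ∀ r : U k, sg (v ⬝ᵥ r) * (if r = 0 then 1 else σ)
      = σ * sg (v ⬝ᵥ r) + (if r = 0 then 1 - σ else 0) := by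
    intro r
    by_cases h : r = 0
    · subst h; simp [sg_zero]
    · simp [h]; ring
  simp only [h1]
  rw [Finset.sum_add_distrib, ← Finset.mul_sum, sum_sg', Finset.sum_ite_eq' univ (0 : U k),
    if_pos (mem_univ _)]
  ring

/-- Correlation of two blocks. -/
lemma fb_corr {k : ℕ} (L L' : U k × ZMod 2) (x z : U k × U k) :
    ∑ y : U k × U k, fb L (x + y) * fb L' (z + y)
      = if x.2 + z.2 = L.1 + L'.1 then
          (2 : ℤ) ^ k * (1 + sg (L.2 + L'.2) * ((if x.1 = z.1 then (2 : ℤ) ^ k else 0) - 1))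
        else 0 := by
  obtain ⟨L1, L2⟩ := L
  obtain ⟨M1, M2⟩ := L'
  obtain ⟨x1, x2⟩ := x
  obtain ⟨z1, z2⟩ := z
  rw [Fintype.sum_prod_type_right]
  have hin : ∀ y2 : U k, ∑ y1 : U k, fb (L1, L2) ((x1, x2) + (y1, y2)) * fb (M1, M2) ((z1, z2) + (y1, y2))
      = (if x2 + z2 + (L1 + M1) = 0 then (2 : ℤ) ^ k else 0) *
        (sg (x1 ⬝ᵥ (x2 + y2 + L1)) * sg (z1 ⬝ᵥ (z2 + y2 + M1)) *
          (hh L2 (x2 + y2 + L1) * hh M2 (z2 + y2 + M1))) := by
    intro y2
    rw [← sum_sg, Finset.sum_mul]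
    apply Finset.sum_congr rfl
    intro y1 _
    simp only [fb, Prod.mk_add_mk]
    have e : x2 + z2 + (L1 + M1) = (x2 + y2 + L1) + (z2 + y2 + M1) := by
      have : (x2 + y2 + L1) + (z2 + y2 + M1) = x2 + z2 + (L1 + M1) + (y2 + y2) := by abel
      rw [this, u_add_self, add_zero]
    rw [e]
    generalize x2 + y2 + L1 = r
    generalize z2 + y2 + M1 = r'
    rw [add_dotProduct, add_dotProduct, sg_add, sg_add, dotProduct_add, sg_add]
    ring
  simp only [hin]
  rw [← Finset.mul_sum]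
  by_cases hc : x2 + z2 = L1 + M1
  · have hc' : x2 + z2 + (L1 + M1) = 0 := (u_add_eq_zero _ _).mpr hc
    rw [if_pos hc', if_pos hc]
    congr 1
    have hr : ∀ y2 : U k, z2 + y2 + M1 = x2 + y2 + L1 := by
      intro y2
      apply (u_add_eq_zero _ _).mp
      have : (z2 + y2 + M1) + (x2 + y2 + L1) = x2 + z2 + (L1 + M1) + (y2 + y2) := by abel
      rw [this, hc', u_add_self, add_zero]
    have h3 : ∑ y2 : U k, (sg (x1 ⬝ᵥ (x2 + y2 + L1)) * sg (z1 ⬝ᵥ (z2 + y2 + M1)) *
          (hh L2 (x2 + y2 + L1) * hh M2 (z2 + y2 + M1)))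
        = ∑ y2 : U k, (fun r : U k => sg ((x1 + z1) ⬝ᵥ r) * (if r = 0 then 1 else sg (L2 + M2)))
            ((x2 + L1) + y2) := by
      apply Finset.sum_congr rfl
      intro y2 _
      have e : x2 + L1 + y2 = x2 + y2 + L1 := by abel
      simp only [hr y2, e]
      generalize x2 + y2 + L1 = r
      rw [hh_mul, add_dotProduct, sg_add (x1 ⬝ᵥ r)]
    have h4 : ∑ y2 : U k, (fun r : U k => sg ((x1 + z1) ⬝ᵥ r) * (if r = 0 then 1 else sg (L2 + M2)))
            ((x2 + L1) + y2) = ∑ r : U k, sg ((x1 + z1) ⬝ᵥ r) * (if r = 0 then 1 else sg (L2 + M2)) :=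
      Equiv.sum_comp (Equiv.addLeft (x2 + L1))
        (fun r : U k => sg ((x1 + z1) ⬝ᵥ r) * (if r = 0 then 1 else sg (L2 + M2)))
    rw [h3, h4, sum_r]
    have : (x1 + z1 = 0) = (x1 = z1) := propext (u_add_eq_zero x1 z1)
    simp only [this]
  · have hc' : ¬ (x2 + z2 + (L1 + M1) = 0) := fun h => hc ((u_add_eq_zero _ _).mp h)
    rw [if_neg hc', if_neg hc, zero_mul]

/-- Data of a symmetric labelling with the generalized Hadamard property. -/
structure Lab (k : ℕ) (C : Type) [Fintype C] [DecidableEq C] where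
  L : C → C → U k × ZMod 2
  symm : ∀ c d, L c d = L d c
  p0 : U k
  p0ne : p0 ≠ 0
  diag : ∀ c, L c c = (p0, 0)
  count : ∀ c e, c ≠ e → ∀ w, (univ.filter (fun d => L c d + L e d = w)).card = 2
  cardC : Fintype.card C = 4 * 2 ^ k

variable {k : ℕ} {C : Type} [Fintype C] [DecidableEq C]

/-- Entry of the big matrix. -/
def Lab.M (S : Lab k C) (p p' : C × (U k × U k)) : ℤ := fb (S.L p.1 p'.1) (p.2 + p'.2)

lemma Lab.M_symm (S : Lab k C) (p p' : C × (U k × U k)) : S.M p p' = S.M p' p := by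
  unfold Lab.M
  rw [S.symm, add_comm]

lemma Lab.M_diag (S : Lab k C) (p : C × (U k × U k)) : S.M p p = 1 := by
  unfold Lab.M
  rw [S.diag]
  have h0 : p.2 + p.2 = 0 := by
    ext1
    · exact u_add_self _
    · exact u_add_self _
  rw [h0]
  unfold fb hh
  simp [S.p0ne, sg_zero]

lemma Lab.M_sum (S : Lab k C) (p : C × (U k × U k)) (d : C) :
    ∑ y, S.M p (d, y) = - (2 : ℤ) ^ k :=
  fb_sum (S.L p.1 d) p.2

lemma Lab.M_corr (S : Lab k C) (c e : C) (x z : U k × U k) :
    ∑ d, ∑ y, S.M (c, x) (d, y) * S.M (e, z) (d, y)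
      = if c = e then (if x = z then 4 * ((2 : ℤ) ^ k) ^ 3 else 0) else 4 * (2 : ℤ) ^ k := by
  have h1 : ∀ d, ∑ y, S.M (c, x) (d, y) * S.M (e, z) (d, y)
      = (fun w : U k × ZMod 2 => if x.2 + z.2 = w.1 then
          (2 : ℤ) ^ k * (1 + sg w.2 * ((if x.1 = z.1 then (2 : ℤ) ^ k else 0) - 1))
        else 0) (S.L c d + S.L e d) := by
    intro d
    exact fb_corr (S.L c d) (S.L e d) x z
  simp only [h1]
  by_cases hce : c = e
  · subst hce
    rw [if_pos rfl]
    have h2 : ∀ d, S.L c d + S.L c d = 0 := by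
      intro d
      ext1
      · exact u_add_self _
      · have : ∀ a : ZMod 2, a + a = 0 := by decide
        exact this _
    simp only [h2]
    rw [Finset.sum_const, card_univ, S.cardC]
    simp only [Prod.fst_zero, Prod.snd_zero, sg_zero, nsmul_eq_mul]
    by_cases hx : x = z
    · subst hx
      rw [if_pos rfl, if_pos (u_add_self _), if_pos rfl]
      push_cast
      ring
    · rw [if_neg hx]
      by_cases hx2 : x.2 = z.2
      · have hx1 : ¬ (x.1 = z.1) := fun h => hx (Prod.ext h hx2)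
        rw [if_neg hx1]
        simp
      · rw [if_neg (fun h => hx2 ((u_add_eq_zero _ _).mp h)), mul_zero]
  · rw [if_neg hce]
    set G := (fun w : U k × ZMod 2 => if x.2 + z.2 = w.1 then
          (2 : ℤ) ^ k * (1 + sg w.2 * ((if x.1 = z.1 then (2 : ℤ) ^ k else 0) - 1))
        else 0) with hG
    have h3 : ∑ d, G (S.L c d + S.L e d) = ∑ w : U k × ZMod 2, 2 * G w := by
      rw [← Finset.sum_fiberwise (s := univ) (g := fun d => S.L c d + S.L e d)
        (f := fun d => G (S.L c d + S.L e d))]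
      apply Finset.sum_congr rfl
      intro w _
      have h4 : ∑ i with S.L c i + S.L e i = w, G (S.L c i + S.L e i)
          = ∑ i with S.L c i + S.L e i = w, G w := by
        apply Finset.sum_congr rfl
        intro i hi
        rw [(Finset.mem_filter.mp hi).2]
      rw [h4, Finset.sum_const, S.count c e hce w]
      simp
    rw [h3, Fintype.sum_prod_type, Finset.sum_eq_single (x.2 + z.2)]
    · have h5 : (univ : Finset (ZMod 2)) = {0, 1} := by decide
      rw [h5, Finset.sum_pair (by decide)]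
      simp only [hG, if_true, sg_zero, sg_one]
      ring
    · intro b _ hb
      apply Finset.sum_eq_zero
      intro z' _
      simp only [hG]
      rw [if_neg (fun h => hb h.symm), mul_zero]
    · intro h; exact absurd (mem_univ _) h

end Pool.Agent.MP_7c9306
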