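import Mathlib

set_option autoImplicit false

/-!
MP_7c9306_co, part 1: the symmetric function of de Caen, Mathon and Moorhouse.
For a finite field `F` of characteristic 2 in which cubing is injective,
`ell (x,i) (y,j) = x^2 y + x y^2 + (i+j)(x^3+y^3)` on `F × Bool` has the property that two
different rows differ by each field element exactly twice.
-/

namespace Pool.Agent.MP_7c9306

open Finset

variable {F : Type} [Field F] [Fintype F] [DecidableEq F] [CharP F 2]

/-- The symmetric function on `F × Bool`. -/
def ell (c d : F × Bool) : F :=
  c.1 ^ 2 * d.1 + c.1 * d.1 ^ 2 + (if c.2 = d.2 then 0 else c.1 ^ 3 + d.1 ^ 3)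

omit [Fintype F] [DecidableEq F] [CharP F 2] in
lemma ell_symm (c d : F × Bool) : ell c d = ell d c := by
  unfold ell
  by_cases h : c.2 = d.2
  · rw [if_pos h, if_pos h.symm]; ring
  · rw [if_neg h, if_neg (fun h' => h h'.symm)]; ring

omit [Fintype F] [DecidableEq F] in
lemma ell_self (c : F × Bool) : ell c c = 0 := by
  unfold ell
  rw [if_pos rfl]
  have : c.1 ^ 2 * c.1 + c.1 * c.1 ^ 2 = c.1 ^ 3 + c.1 ^ 3 := by ring
  rw [this, CharTwo.add_self_eq_zero, add_zero]

omit [DecidableEq F] [CharP F 2] in
/-- Cubing is bijective when it is injective. -/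
lemma cube_bij (hc : Function.Injective (fun x : F => x ^ 3)) :
    Function.Bijective (fun x : F => x ^ 3) :=
  ⟨hc, Finite.surjective_of_injective hc⟩

omit [Fintype F] [DecidableEq F] in
/-- `z^2+z+1` has no root. -/
lemma no_root (hc : Function.Injective (fun x : F => x ^ 3)) (z : F) : z ^ 2 + z + 1 ≠ 0 := by
  intro h
  have h3 : z ^ 3 = 1 ^ 3 := by
    have h1 : z ^ 3 - 1 = (z - 1) * (z ^ 2 + z + 1) := by ring
    rw [h, mul_zero] at h1
    have := sub_eq_zero.mp h1
    rw [this, one_pow]
  have hz : z = 1 := hc h3
  rw [hz] at h
  have h2 : (1 : F) ^ 2 + 1 + 1 = 1 + (1 + 1) := by ring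
  rw [h2, CharTwo.add_self_eq_zero, add_zero] at h
  exact one_ne_zero h

/-- The number of solutions in the case of different second coordinates, one for each `j`. -/
lemma count_ne (hc : Function.Injective (fun x : F => x ^ 3)) (u w : F) :
    (univ.filter (fun y : F => y ^ 3 + u * y ^ 2 + u ^ 2 * y = w)).card = 1 := by
  rw [Finset.card_eq_one]
  obtain ⟨y0, hy0⟩ := (cube_bij hc).2 (w + u ^ 3)
  refine ⟨y0 + u, ?_⟩
  have key : ∀ y : F, (y + u) ^ 3 = y ^ 3 + u * y ^ 2 + u ^ 2 * y + u ^ 3 := by
    intro y
    have h2 : (2 : F) = 0 := CharTwo.two_eq_zero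
    linear_combination (u * y ^ 2 + u ^ 2 * y) * h2
  ext y
  simp only [mem_filter, mem_univ, true_and, mem_singleton]
  constructor
  · intro h
    have h1 : (y + u) ^ 3 = y0 ^ 3 := by
      rw [key y, h]; exact hy0.symm
    have h2 : y + u = y0 := hc h1
    rw [← h2, add_assoc, CharTwo.add_self_eq_zero, add_zero]
  · intro h
    have h1 : (y + u) ^ 3 = w + u ^ 3 := by
      rw [h, add_assoc, CharTwo.add_self_eq_zero, add_zero]; exact hy0
    rw [key y] at h1
    exact add_right_cancel h1

/-- The additive map in the case of equal second coordinates. -/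
noncomputable def lam (u v : F) : F × ZMod 2 →+ F where
  toFun p := u ^ 2 * p.1 + u * p.1 ^ 2 + (if p.2 = 0 then 0 else v)
  map_zero' := by simp
  map_add' := by
    intro p p'
    have h2 : (2 : F) = 0 := CharTwo.two_eq_zero
    have hz : ∀ a b : ZMod 2, (if a + b = 0 then (0:F) else v)
        = (if a = 0 then 0 else v) + (if b = 0 then 0 else v) := by
      intro a b
      have ha : a = 0 ∨ a = 1 := by revert a; decide
      have hb : b = 0 ∨ b = 1 := by revert b; decide
      rcases ha with rfl | rfl <;> rcases hb with rfl | rfl
      · simp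
      · simp
      · simp
      · have h11 : (1 : ZMod 2) + 1 = 0 := by decide
        rw [if_pos h11]
        simp [CharTwo.add_self_eq_zero]
    simp only [Prod.fst_add, Prod.snd_add, hz]
    linear_combination (u * p.1 * p'.1) * h2

omit [Fintype F] [DecidableEq F] in
lemma lam_apply (u v : F) (p : F × ZMod 2) :
    lam u v p = u ^ 2 * p.1 + u * p.1 ^ 2 + (if p.2 = 0 then 0 else v) := rfl

omit [Fintype F] [DecidableEq F] in
/-- The kernel has exactly two elements. -/
lemma lam_ker (hc : Function.Injective (fun x : F => x ^ 3)) (x x' : F) (hx : x ≠ x')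
    (p : F × ZMod 2) :
    lam (x + x') (x ^ 3 + x' ^ 3) p = 0 ↔ p = (0, 0) ∨ p = (x + x', 0) := by
  have h2 : (2 : F) = 0 := CharTwo.two_eq_zero
  have hu : x + x' ≠ 0 := by
    intro h
    apply hx
    have := CharTwo.add_eq_zero.mp h
    exact this
  obtain ⟨y, j⟩ := p
  rw [lam_apply]
  have hj : j = 0 ∨ j = 1 := by revert j; decide
  rcases hj with rfl | rfl
  · simp only [if_true, add_zero]
    constructor
    · intro h
      have h1 : (x + x') * (y * ((x + x') + y)) = 0 := by
        linear_combination h
      rcases mul_eq_zero.mp h1 with h3 | h3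
      · exact absurd h3 hu
      · rcases mul_eq_zero.mp h3 with h4 | h4
        · left; rw [h4]
        · right
          have := CharTwo.add_eq_zero.mp h4
          rw [← this]
    · rintro (h | h)
      · have : y = 0 := congrArg Prod.fst h
        rw [this]; ring
      · have : y = x + x' := congrArg Prod.fst h
        rw [this]
        linear_combination ((x + x') ^ 3) * h2
  · have h10 : (1 : ZMod 2) ≠ 0 := by decide
    simp only [if_neg h10]
    constructor
    · intro h
      exfalso
      -- divide by u^3
      have hz := no_root hc ((y + x) / (x + x'))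
      apply hz
      have hu3 : (x + x') ^ 2 ≠ 0 := pow_ne_zero _ hu
      have e : (x + x') * ((y + x) ^ 2 + (y + x) * (x + x') + (x + x') ^ 2) = 0 := by
        linear_combination h + (x * y * (x + x') + x ^ 3 + 3 * x ^ 2 * x' + 2 * x * x' ^ 2) * h2
      rcases mul_eq_zero.mp e with h3 | h3
      · exact absurd h3 hu
      · field_simp
        linear_combination h3
    · rintro (h | h)
      · exact absurd (congrArg Prod.snd h) h10
      · exact absurd (congrArg Prod.snd h) h10

/-- The map `lam` is exactly two to one. -/
lemma lam_fib (hc : Function.Injective (fun x : F => x ^ 3)) (x x' : F) (hx : x ≠ x') (w : F) :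
    (univ.filter (fun p : F × ZMod 2 => lam (x + x') (x ^ 3 + x' ^ 3) p = w)).card = 2 := by
  classical
  set φ := lam (x + x') (x ^ 3 + x' ^ 3) with hφ
  have hu : x + x' ≠ 0 := fun h => hx (CharTwo.add_eq_zero.mp h)
  have hker : (univ.filter (fun p : F × ZMod 2 => φ p = 0)).card = 2 := by
    have : univ.filter (fun p : F × ZMod 2 => φ p = 0) = {(0, 0), (x + x', 0)} := by
      ext p
      simp only [mem_filter, mem_univ, true_and, mem_insert, mem_singleton]
      exact lam_ker hc x x' hx p
    rw [this]
    apply Finset.card_pair
    intro h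
    exact hu (congrArg Prod.fst h).symm
  -- every nonempty fibre has two elements
  have hfib : ∀ p0 : F × ZMod 2,
      (univ.filter (fun p : F × ZMod 2 => φ p = φ p0)).card = 2 := by
    intro p0
    refine Eq.trans ?_ hker
    apply Finset.card_bij (fun p _ => p - p0)
    · intro p hp
      simp only [mem_filter, mem_univ, true_and] at hp ⊢
      rw [map_sub, hp, sub_self]
    · intro a _ b _ h
      exact sub_left_injective h
    · intro b hb
      simp only [mem_filter, mem_univ, true_and] at hb
      refine ⟨b + p0, ?_, by simp⟩
      simp only [mem_filter, mem_univ, true_and]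
      rw [map_add, hb, zero_add]
  -- surjectivity by counting
  have hsurj : ∀ w : F, ∃ p, φ p = w := by
    have h1 : Fintype.card (F × ZMod 2) = ∑ w ∈ univ.image φ, (univ.filter (fun p => φ p = w)).card := by
      rw [← Finset.card_univ]
      exact Finset.card_eq_sum_card_image φ univ
    have h2 : ∑ w ∈ univ.image φ, (univ.filter (fun p => φ p = w)).card = (univ.image φ).card * 2 := by
      rw [Finset.sum_const_nat]
      intro w hw
      obtain ⟨p0, _, rfl⟩ := Finset.mem_image.mp hw
      exact hfib p0
    rw [h2, Fintype.card_prod, ZMod.card] at h1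
    have h3 : (univ.image φ).card = Fintype.card F := by omega
    have h4 : univ.image φ = univ := Finset.eq_univ_of_card _ h3
    intro w
    have : w ∈ univ.image φ := by rw [h4]; exact mem_univ w
    obtain ⟨p, _, hp⟩ := Finset.mem_image.mp this
    exact ⟨p, hp⟩
  obtain ⟨p0, hp0⟩ := hsurj w
  rw [← hp0]
  exact hfib p0

/-- Two different rows of `ell` differ by each field element exactly twice. -/
theorem ell_count (hc : Function.Injective (fun x : F => x ^ 3)) (c e : F × Bool) (hce : c ≠ e)
    (w : F) :
    (univ.filter (fun d : F × Bool => ell c d + ell e d = w)).card = 2 := by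
  classical
  have h2 : (2 : F) = 0 := CharTwo.two_eq_zero
  obtain ⟨x, i⟩ := c
  obtain ⟨x', i'⟩ := e
  by_cases hi : i = i'
  · subst hi
    have hx : x ≠ x' := fun h => hce (by rw [h])
    rw [← lam_fib hc x x' hx w]
    apply Finset.card_bij (fun d _ => (d.1, if i = d.2 then (0 : ZMod 2) else 1))
    · rintro ⟨y, j⟩ h
      have h := (Finset.mem_filter.mp h).2
      refine Finset.mem_filter.mpr ⟨mem_univ _, ?_⟩
      rw [← h, lam_apply]
      by_cases hj : i = j
      · simp only [ell, if_pos hj, if_true]
        linear_combination (x * x' * y) * h2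
      · simp only [ell, if_neg hj, if_neg (by decide : ¬ (1 : ZMod 2) = 0)]
        linear_combination (x * x' * y - y ^ 3) * h2
    · rintro ⟨y, j⟩ _ ⟨y', j'⟩ _ h
      have e1 : y = y' := congrArg Prod.fst h
      have e2 : (if i = j then (0 : ZMod 2) else 1) = (if i = j' then (0 : ZMod 2) else 1) :=
        congrArg Prod.snd h
      have e3 : j = j' := by
        revert e2
        cases i <;> cases j <;> cases j' <;> simp
      rw [e1, e3]
    · rintro ⟨y, z⟩ h
      have hz : z = 0 ∨ z = 1 := by clear h; revert z; decide
      refine ⟨(y, if z = 0 then i else !i), ?_, ?_⟩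
      · have h := (Finset.mem_filter.mp h).2
        refine Finset.mem_filter.mpr ⟨mem_univ _, ?_⟩
        rw [← h, lam_apply]
        simp only [ell]
        rcases hz with rfl | rfl
        · simp only [if_true]
          linear_combination (- x * x' * y) * h2
        · have hne : ¬ (i = !i) := by cases i <;> decide
          simp only [if_neg (by decide : ¬ (1 : ZMod 2) = 0), if_neg hne]
          linear_combination (- x * x' * y + y ^ 3) * h2
      · rcases hz with rfl | rfl
        · simp
        · have hne : ¬ (i = !i) := by cases i <;> decide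
          simp [hne]
  · -- different second coordinates
    have hcount : ∀ j : Bool,
        (univ.filter (fun y : F => ell (x, i) (y, j) + ell (x', i') (y, j) = w)).card = 1 := by
      intro j
      by_cases hj : i = j
      · have hj' : ¬ (i' = j) := fun h => hi (hj.trans h.symm)
        rw [← count_ne hc (x + x') (w + x' ^ 3)]
        congr 1
        ext y
        simp only [mem_filter, mem_univ, true_and, ell, if_pos hj, if_neg hj']
        constructor
        · intro h
          rw [← h]
          linear_combination (x * x' * y - x' ^ 3) * h2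
        · intro h
          linear_combination h + (- x * x' * y + x' ^ 3) * h2
      · have hj' : i' = j := by
          revert hi hj
          cases i <;> cases i' <;> cases j <;> simp
        rw [← count_ne hc (x + x') (w + x ^ 3)]
        congr 1
        ext y
        simp only [mem_filter, mem_univ, true_and, ell, if_neg hj, if_pos hj']
        constructor
        · intro h
          rw [← h]
          linear_combination (x * x' * y - x ^ 3) * h2
        · intro h
          linear_combination h + (- x * x' * y + x ^ 3) * h2
    have hsplit : (univ.filter (fun d : F × Bool => ell (x, i) d + ell (x', i') d = w)).card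
        = ∑ j : Bool,
          (univ.filter (fun y : F => ell (x, i) (y, j) + ell (x', i') (y, j) = w)).card := by
      rw [Finset.card_filter, Fintype.sum_prod_type_right]
      apply Finset.sum_congr rfl
      intro j _
      rw [Finset.card_filter]
    rw [hsplit]
    simp only [hcount]
    simp

end Pool.Agent.MP_7c9306
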