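import Mathlib
import Pool.Agent.Lib.MP_7c9306.Blocks

set_option autoImplicit false

/-!
MP_7c9306_co, part 3: the matrix `T` of the graph and its square.
-/

namespace Pool.Agent.MP_7c9306

open Finset

variable {k : ℕ} {C : Type} [Fintype C] [DecidableEq C]

/-- Vertices: nonzero vectors of length `k+2` together with the points `(c, x)`. -/
abbrev VV (k : ℕ) (C : Type) : Type := {i : U (k + 2) // i ≠ 0} ⊕ (C × (U k × U k))

/-- The switching sign. -/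
def DD (ψ : C ≃ U (k + 2)) (c : C) : ℤ := if ψ c = 0 then -1 else 1

/-- The matrix `T`. -/
def Lab.T (S : Lab k C) (ψ : C ≃ U (k + 2)) : VV k C → VV k C → ℤ
  | Sum.inl _, Sum.inl _ => 1
  | Sum.inl i, Sum.inr p => sg (i.1 ⬝ᵥ ψ p.1)
  | Sum.inr p, Sum.inl i => sg (i.1 ⬝ᵥ ψ p.1)
  | Sum.inr p, Sum.inr p' => DD ψ p.1 * DD ψ p'.1 * S.M p p'

omit [Fintype C] [DecidableEq C] in
lemma DD_sq (ψ : C ≃ U (k + 2)) (c : C) : DD ψ c * DD ψ c = 1 := by
  unfold DD; split_ifs <;> norm_num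

omit [Fintype C] [DecidableEq C] in
lemma DD_pm (ψ : C ≃ U (k + 2)) (c : C) : DD ψ c = 1 ∨ DD ψ c = -1 := by
  unfold DD; split_ifs <;> simp

lemma T_symm (S : Lab k C) (ψ : C ≃ U (k + 2)) (u v : VV k C) : S.T ψ u v = S.T ψ v u := by
  rcases u with i | p <;> rcases v with j | p'
  · rfl
  · rfl
  · rfl
  · show DD ψ p.1 * DD ψ p'.1 * S.M p p' = DD ψ p'.1 * DD ψ p.1 * S.M p' p
    rw [S.M_symm]; ring

lemma T_diag (S : Lab k C) (ψ : C ≃ U (k + 2)) (u : VV k C) : S.T ψ u u = 1 := by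
  rcases u with i | p
  · rfl
  · show DD ψ p.1 * DD ψ p.1 * S.M p p = 1
    rw [S.M_diag, DD_sq, mul_one]

lemma T_pm (S : Lab k C) (ψ : C ≃ U (k + 2)) (u v : VV k C) :
    S.T ψ u v = 1 ∨ S.T ψ u v = -1 := by
  have h1 : ∀ a : ZMod 2, sg a = 1 ∨ sg a = -1 := by decide
  rcases u with i | p <;> rcases v with j | p'
  · left; rfl
  · exact h1 _
  · exact h1 _
  · have h : S.M p p' = 1 ∨ S.M p p' = -1 := fb_pm _ _
    show DD ψ p.1 * DD ψ p'.1 * S.M p p' = 1 ∨ DD ψ p.1 * DD ψ p'.1 * S.M p p' = -1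
    rcases DD_pm ψ p.1 with h2 | h2 <;> rcases DD_pm ψ p'.1 with h3 | h3 <;>
      rcases h with h4 | h4 <;> rw [h2, h3, h4] <;> norm_num

/-- Number of indices on the left. -/
lemma card_left (k : ℕ) : (Fintype.card {i : U (k + 2) // i ≠ 0} : ℤ) = 4 * 2 ^ k - 1 := by
  have h := Fintype.card_subtype_compl (fun i : U (k + 2) => i = 0)
  have h1 : Fintype.card {i : U (k + 2) // i = 0} = 1 := by simp
  have h2 : Fintype.card (U (k + 2)) = 4 * 2 ^ k := by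
    rw [card_U, pow_add]; ring
  rw [h1, h2] at h
  have h3 : Fintype.card {i : U (k + 2) // i ≠ 0} = 4 * 2 ^ k - 1 := h
  rw [h3]
  have : 1 ≤ 4 * 2 ^ k := by
    have := Nat.one_le_two_pow (n := k); omega
  push_cast [Nat.cast_sub this]
  ring

/-- Sum over nonzero indices. -/
lemma sum_left {k : ℕ} (w : U (k + 2)) :
    ∑ i : {i : U (k + 2) // i ≠ 0}, sg (i.1 ⬝ᵥ w) = (if w = 0 then 4 * (2 : ℤ) ^ k else 0) - 1 := by
  have h : ∑ i : U (k + 2), sg (i ⬝ᵥ w)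
      = ∑ i : {i : U (k + 2) // i ≠ 0}, sg (i.1 ⬝ᵥ w) + 1 := by
    rw [← Fintype.sum_subtype_add_sum_subtype (fun i : U (k + 2) => i ≠ 0)
      (fun i => sg (i ⬝ᵥ w))]
    congr 1
    have : ∀ i : {i : U (k + 2) // ¬ i ≠ 0}, sg (i.1 ⬝ᵥ w) = 1 := by
      intro i
      have : i.1 = 0 := not_not.mp i.2
      rw [this, zero_dotProduct, sg_zero]
    simp only [this]
    simp
  rw [sum_sg] at h
  have e : (2 : ℤ) ^ (k + 2) = 4 * 2 ^ k := by rw [pow_add]; ring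
  rw [e] at h
  linarith

lemma sum_left2 {k : ℕ} (w w' : U (k + 2)) :
    ∑ i : {i : U (k + 2) // i ≠ 0}, sg (i.1 ⬝ᵥ w) * sg (i.1 ⬝ᵥ w')
      = (if w = w' then 4 * (2 : ℤ) ^ k else 0) - 1 := by
  have h : ∀ i : {i : U (k + 2) // i ≠ 0}, sg (i.1 ⬝ᵥ w) * sg (i.1 ⬝ᵥ w') = sg (i.1 ⬝ᵥ (w + w')) := by
    intro i
    rw [dotProduct_add, sg_add]
  simp only [h]
  rw [sum_left]
  have : (w + w' = 0) = (w = w') := propext (u_add_eq_zero w w')
  simp only [this]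

omit [DecidableEq C] in
/-- Sum over classes of a row of the Hadamard matrix. -/
lemma sum_row (ψ : C ≃ U (k + 2)) (i : U (k + 2)) :
    ∑ c : C, sg (i ⬝ᵥ ψ c) = if i = 0 then 4 * (2 : ℤ) ^ k else 0 := by
  rw [Equiv.sum_comp ψ (fun w => sg (i ⬝ᵥ w)), sum_sg']
  have e : (2 : ℤ) ^ (k + 2) = 4 * 2 ^ k := by rw [pow_add]; ring
  rw [e]

omit [DecidableEq C] in
lemma sum_row2 (ψ : C ≃ U (k + 2)) (i j : U (k + 2)) :
    ∑ c : C, sg (i ⬝ᵥ ψ c) * sg (j ⬝ᵥ ψ c) = if i = j then 4 * (2 : ℤ) ^ k else 0 := by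
  have h : ∀ c : C, sg (i ⬝ᵥ ψ c) * sg (j ⬝ᵥ ψ c) = sg ((i + j) ⬝ᵥ ψ c) := by
    intro c
    rw [add_dotProduct, sg_add]
  simp only [h]
  rw [sum_row]
  have : (i + j = 0) = (i = j) := propext (u_add_eq_zero i j)
  simp only [this]

omit [DecidableEq C] in
lemma sum_DD (ψ : C ≃ U (k + 2)) : ∑ c : C, DD ψ c = 4 * (2 : ℤ) ^ k - 2 := by
  unfold DD
  rw [Equiv.sum_comp ψ (fun w => if w = 0 then (-1 : ℤ) else 1)]
  have h : ∀ w : U (k + 2), (if w = 0 then (-1 : ℤ) else 1) = 1 - (if w = 0 then 2 else 0) := by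
    intro w; split_ifs <;> norm_num
  simp only [h]
  rw [Finset.sum_sub_distrib, Finset.sum_ite_eq' univ (0 : U (k + 2)), if_pos (mem_univ _)]
  rw [Finset.sum_const, card_univ, card_U]
  have e : (2 : ℤ) ^ (k + 2) = 4 * 2 ^ k := by rw [pow_add]; ring
  simp
  rw [e]

omit [DecidableEq C] in
lemma sum_row_DD (ψ : C ≃ U (k + 2)) (i : U (k + 2)) (hi : i ≠ 0) :
    ∑ c : C, sg (i ⬝ᵥ ψ c) * DD ψ c = -2 := by
  have h : ∀ c : C, sg (i ⬝ᵥ ψ c) * DD ψ c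
      = (fun w => sg (i ⬝ᵥ w) - (if w = 0 then 2 else 0)) (ψ c) := by
    intro c
    unfold DD
    by_cases h0 : ψ c = 0
    · simp [h0, sg_zero]
    · simp [h0]
  simp only [h]
  rw [Equiv.sum_comp ψ (fun w => sg (i ⬝ᵥ w) - (if w = 0 then 2 else 0))]
  rw [Finset.sum_sub_distrib, Finset.sum_ite_eq' univ (0 : U (k + 2)), if_pos (mem_univ _), sum_sg',
    if_neg hi]
  norm_num

/-- The vector `a` minus `g^3`: `0` on the left, `DD * g` on the right. -/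
def aa (ψ : C ≃ U (k + 2)) (g : ℤ) : VV k C → ℤ
  | Sum.inl _ => g ^ 3
  | Sum.inr p => g ^ 3 + DD ψ p.1 * g

/-- Row sums of `T`. -/
lemma T_row (S : Lab k C) (ψ : C ≃ U (k + 2)) (g : ℤ) (hg : g ^ 2 = 2 ^ k) (u : VV k C) :
    ∑ w, S.T ψ u w = 2 * g ^ 6 + 4 * g ^ 2 - 1 - 2 * (aa ψ g u) ^ 2 := by
  rw [Fintype.sum_sum_type]
  rcases u with i | p
  · show ∑ _w : {i : U (k + 2) // i ≠ 0}, (1 : ℤ) + ∑ p' : C × (U k × U k), sg (i.1 ⬝ᵥ ψ p'.1)
      = 2 * g ^ 6 + 4 * g ^ 2 - 1 - 2 * (g ^ 3) ^ 2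
    have h1 : ∑ _w : {i : U (k + 2) // i ≠ 0}, (1 : ℤ) = 4 * 2 ^ k - 1 := by
      rw [← card_left]; simp
    have h2 : ∑ p' : C × (U k × U k), sg (i.1 ⬝ᵥ ψ p'.1) = 0 := by
      rw [Fintype.sum_prod_type]
      simp only [Finset.sum_const]
      rw [← Finset.smul_sum, sum_row, if_neg i.2, smul_zero]
    rw [h1, h2, ← hg]
    ring
  · show ∑ i : {i : U (k + 2) // i ≠ 0}, sg (i.1 ⬝ᵥ ψ p.1)
        + ∑ p' : C × (U k × U k), DD ψ p.1 * DD ψ p'.1 * S.M p p'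
      = 2 * g ^ 6 + 4 * g ^ 2 - 1 - 2 * (g ^ 3 + DD ψ p.1 * g) ^ 2
    have h2 : ∑ p' : C × (U k × U k), DD ψ p.1 * DD ψ p'.1 * S.M p p'
        = DD ψ p.1 * ((4 * 2 ^ k - 2) * (- 2 ^ k)) := by
      rw [← sum_DD ψ, Fintype.sum_prod_type, Finset.sum_mul, Finset.mul_sum]
      apply Finset.sum_congr rfl
      intro d _
      dsimp only
      rw [← Finset.mul_sum, S.M_sum]
      ring
    rw [h2, sum_left, ← hg]
    unfold DD
    by_cases h0 : ψ p.1 = 0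
    · rw [if_pos h0, if_pos h0]; ring
    · rw [if_neg h0, if_neg h0]; ring

/-- The square of `T`. -/
lemma T_sq (S : Lab k C) (ψ : C ≃ U (k + 2)) (g : ℤ) (hg : g ^ 2 = 2 ^ k) (u v : VV k C) :
    ∑ w, S.T ψ u w * S.T ψ v w
      = (if u = v then 4 * g ^ 6 else 0) + (4 * g ^ 2 - 1) - 2 * (aa ψ g u - aa ψ g v) ^ 2 := by
  rw [Fintype.sum_sum_type]
  -- left-right case
  have hLR : ∀ (i : {i : U (k + 2) // i ≠ 0}) (p : C × (U k × U k)),
      ∑ w, S.T ψ (Sum.inl i) (Sum.inl w) * S.T ψ (Sum.inr p) (Sum.inl w)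
        + ∑ w, S.T ψ (Sum.inl i) (Sum.inr w) * S.T ψ (Sum.inr p) (Sum.inr w)
      = (4 * g ^ 2 - 1) - 2 * (g ^ 3 - (g ^ 3 + DD ψ p.1 * g)) ^ 2 := by
    intro i p
    show ∑ w : {i : U (k + 2) // i ≠ 0}, 1 * sg (w.1 ⬝ᵥ ψ p.1)
        + ∑ p' : C × (U k × U k), sg (i.1 ⬝ᵥ ψ p'.1) * (DD ψ p.1 * DD ψ p'.1 * S.M p p') = _
    have h2 : ∑ p' : C × (U k × U k), sg (i.1 ⬝ᵥ ψ p'.1) * (DD ψ p.1 * DD ψ p'.1 * S.M p p')
        = DD ψ p.1 * ((-2) * (- 2 ^ k)) := by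
      rw [← sum_row_DD ψ i.1 i.2, Fintype.sum_prod_type, Finset.sum_mul, Finset.mul_sum]
      apply Finset.sum_congr rfl
      intro d _
      dsimp only
      rw [← Finset.mul_sum, ← Finset.mul_sum, S.M_sum]
      ring
    rw [h2]
    simp only [one_mul]
    rw [sum_left, ← hg]
    unfold DD
    by_cases h0 : ψ p.1 = 0
    · rw [if_pos h0, if_pos h0]; ring
    · rw [if_neg h0, if_neg h0]; ring
  rcases u with i | p <;> rcases v with j | p'
  · show ∑ w : {i : U (k + 2) // i ≠ 0}, (1 : ℤ) * 1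
        + ∑ p' : C × (U k × U k), sg (i.1 ⬝ᵥ ψ p'.1) * sg (j.1 ⬝ᵥ ψ p'.1)
      = (if (Sum.inl i : VV k C) = Sum.inl j then 4 * g ^ 6 else 0) + (4 * g ^ 2 - 1)
        - 2 * (g ^ 3 - g ^ 3) ^ 2
    have h1 : ∑ _w : {i : U (k + 2) // i ≠ 0}, (1 : ℤ) * 1 = 4 * 2 ^ k - 1 := by
      rw [← card_left]; simp
    have h2 : ∑ p' : C × (U k × U k), sg (i.1 ⬝ᵥ ψ p'.1) * sg (j.1 ⬝ᵥ ψ p'.1)
        = if i = j then 4 * (2 ^ k) ^ 3 else 0 := by
      rw [Fintype.sum_prod_type]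
      simp only [Finset.sum_const]
      rw [← Finset.smul_sum, sum_row2]
      rw [card_univ, Fintype.card_prod, card_U]
      by_cases h : i = j
      · rw [if_pos (congrArg Subtype.val h), if_pos h]
        simp only [nsmul_eq_mul]
        push_cast
        ring
      · rw [if_neg (fun h' => h (Subtype.ext h')), if_neg h, smul_zero]
    rw [h1, h2, ← hg]
    by_cases h : i = j
    · rw [if_pos h, if_pos (congrArg Sum.inl h)]; ring
    · rw [if_neg h, if_neg (fun h' => h (Sum.inl_injective h'))]; ring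
  · rw [hLR i p', if_neg (by simp)]
    show _ = (0 : ℤ) + (4 * g ^ 2 - 1) - 2 * (g ^ 3 - (g ^ 3 + DD ψ p'.1 * g)) ^ 2
    ring
  · have := hLR j p
    rw [if_neg (by simp)]
    show _ = (0 : ℤ) + (4 * g ^ 2 - 1) - 2 * ((g ^ 3 + DD ψ p.1 * g) - g ^ 3) ^ 2
    have e : ∑ w, S.T ψ (Sum.inr p) (Sum.inl w) * S.T ψ (Sum.inl j) (Sum.inl w)
        + ∑ w, S.T ψ (Sum.inr p) (Sum.inr w) * S.T ψ (Sum.inl j) (Sum.inr w)
        = ∑ w, S.T ψ (Sum.inl j) (Sum.inl w) * S.T ψ (Sum.inr p) (Sum.inl w)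
        + ∑ w, S.T ψ (Sum.inl j) (Sum.inr w) * S.T ψ (Sum.inr p) (Sum.inr w) := by
      congr 1 <;> (apply Finset.sum_congr rfl; intro w _; ring)
    rw [e, this]
    ring
  · show ∑ w : {i : U (k + 2) // i ≠ 0}, sg (w.1 ⬝ᵥ ψ p.1) * sg (w.1 ⬝ᵥ ψ p'.1)
        + ∑ w : C × (U k × U k), (DD ψ p.1 * DD ψ w.1 * S.M p w) * (DD ψ p'.1 * DD ψ w.1 * S.M p' w)
      = (if (Sum.inr p : VV k C) = Sum.inr p' then 4 * g ^ 6 else 0) + (4 * g ^ 2 - 1)
        - 2 * ((g ^ 3 + DD ψ p.1 * g) - (g ^ 3 + DD ψ p'.1 * g)) ^ 2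
    have h2 : ∑ w : C × (U k × U k), (DD ψ p.1 * DD ψ w.1 * S.M p w) * (DD ψ p'.1 * DD ψ w.1 * S.M p' w)
        = DD ψ p.1 * DD ψ p'.1 *
          (if p.1 = p'.1 then (if p.2 = p'.2 then 4 * ((2 : ℤ) ^ k) ^ 3 else 0) else 4 * (2 : ℤ) ^ k) := by
      rw [← S.M_corr, Fintype.sum_prod_type, Finset.mul_sum]
      apply Finset.sum_congr rfl
      intro d _
      rw [Finset.mul_sum]
      apply Finset.sum_congr rfl
      intro y _
      have h := DD_sq ψ d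
      show (DD ψ p.1 * DD ψ d * S.M p (d, y)) * (DD ψ p'.1 * DD ψ d * S.M p' (d, y))
        = DD ψ p.1 * DD ψ p'.1 * (S.M p (d, y) * S.M p' (d, y))
      linear_combination (DD ψ p.1 * DD ψ p'.1 * (S.M p (d, y) * S.M p' (d, y))) * h
    rw [h2, sum_left2, ← hg]
    by_cases h1 : p.1 = p'.1
    · rw [if_pos (congrArg ψ h1), if_pos h1, h1, DD_sq]
      by_cases h3 : p.2 = p'.2
      · rw [if_pos h3, if_pos (congrArg Sum.inr (Prod.ext h1 h3))]
        ring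
      · rw [if_neg h3, if_neg (fun h' => h3 (congrArg Prod.snd (Sum.inr_injective h')))]
        ring
    · have h3 : ¬ (ψ p.1 = ψ p'.1) := fun h => h1 (ψ.injective h)
      rw [if_neg h3, if_neg h1, if_neg (fun h' => h1 (congrArg Prod.fst (Sum.inr_injective h')))]
      unfold DD
      by_cases h4 : ψ p.1 = 0
      · have h5 : ¬ (ψ p'.1 = 0) := fun h => h3 (h4.trans h.symm)
        rw [if_pos h4, if_neg h5]; ring
      · by_cases h5 : ψ p'.1 = 0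
        · rw [if_neg h4, if_pos h5]; ring
        · rw [if_neg h4, if_neg h5]; ring

/-- The number of vertices. -/
lemma card_VV (S : Lab k C) (g : ℤ) (hg : g ^ 2 = 2 ^ k) :
    (Fintype.card (VV k C) : ℤ) = 4 * g ^ 6 + 4 * g ^ 2 - 1 := by
  rw [Fintype.card_sum]
  push_cast
  rw [card_left, Fintype.card_prod, Fintype.card_prod, S.cardC, card_U]
  push_cast
  rw [← hg]
  ring

/-- The adjacency relation. -/
def Lab.G (S : Lab k C) (ψ : C ≃ U (k + 2)) : SimpleGraph (VV k C) where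
  Adj u v := S.T ψ u v = -1
  symm := by
    constructor
    intro u v h
    rw [T_symm]; exact h
  loopless := by
    constructor
    intro u h
    rw [T_diag] at h
    norm_num at h

instance (S : Lab k C) (ψ : C ≃ U (k + 2)) : DecidableRel (S.G ψ).Adj :=
  fun u v => inferInstanceAs (Decidable (S.T ψ u v = -1))

/-- Products of adjacency entries. -/
lemma G_sq (S : Lab k C) (ψ : C ≃ U (k + 2)) (g : ℤ) (hg : g ^ 2 = 2 ^ k) (u v : VV k C) :
    ∑ w, (if (S.G ψ).Adj u w then (1 : ℤ) else 0) * (if (S.G ψ).Adj v w then (1 : ℤ) else 0)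
      = (if u = v then g ^ 6 else 0) + aa ψ g u * aa ψ g v := by
  have hA : ∀ u w : VV k C, 2 * (if (S.G ψ).Adj u w then (1 : ℤ) else 0) = 1 - S.T ψ u w := by
    intro u w
    by_cases h : (S.G ψ).Adj u w
    · have h' : S.T ψ u w = -1 := h
      rw [if_pos h, h']; norm_num
    · have h' : S.T ψ u w ≠ -1 := h
      rcases T_pm S ψ u w with h1 | h1
      · rw [if_neg h, h1]; norm_num
      · exact absurd h1 h'
  have h4 : 4 * ∑ w, (if (S.G ψ).Adj u w then (1 : ℤ) else 0) * (if (S.G ψ).Adj v w then (1 : ℤ) else 0)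
      = ∑ w, (1 - S.T ψ u w) * (1 - S.T ψ v w) := by
    rw [Finset.mul_sum]
    apply Finset.sum_congr rfl
    intro w _
    rw [← hA, ← hA]; ring
  have h5 : ∑ w, (1 - S.T ψ u w) * (1 - S.T ψ v w)
      = (Fintype.card (VV k C) : ℤ) - ∑ w, S.T ψ u w - ∑ w, S.T ψ v w
        + ∑ w, S.T ψ u w * S.T ψ v w := by
    have : ∀ w, (1 - S.T ψ u w) * (1 - S.T ψ v w)
        = 1 - S.T ψ u w - S.T ψ v w + S.T ψ u w * S.T ψ v w := by intro w; ring
    simp only [this]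
    rw [Finset.sum_add_distrib, Finset.sum_sub_distrib, Finset.sum_sub_distrib]
    simp
  rw [h5, card_VV S g hg, T_row S ψ g hg, T_row S ψ g hg, T_sq S ψ g hg] at h4
  have : 4 * ((if u = v then g ^ 6 else 0) + aa ψ g u * aa ψ g v)
      = (4 * g ^ 6 + 4 * g ^ 2 - 1 - (2 * g ^ 6 + 4 * g ^ 2 - 1 - 2 * aa ψ g u ^ 2) -
        (2 * g ^ 6 + 4 * g ^ 2 - 1 - 2 * aa ψ g v ^ 2) +
      ((if u = v then 4 * g ^ 6 else 0) + (4 * g ^ 2 - 1) - 2 * (aa ψ g u - aa ψ g v) ^ 2)) := by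
    by_cases h : u = v
    · rw [if_pos h, if_pos h]; ring
    · rw [if_neg h, if_neg h]; ring
  rw [← this] at h4
  linarith

end Pool.Agent.MP_7c9306
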