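import Mathlib

set_option autoImplicit false

/-!
MP_7c9306_co, part 4: a graph on `Fin n` whose adjacency matrix satisfies `A^2 = κ^2 I + a a^T` with
`a > 0` and `κ > 1` is connected and has exactly three distinct eigenvalues.
-/

namespace Pool.Agent.MP_7c9306

open Finset Matrix

/-- A root of the characteristic polynomial is an eigenvalue and conversely. -/
lemma mem_roots_iff {n : ℕ} (A : Matrix (Fin n) (Fin n) ℝ) (μ : ℝ) :
    μ ∈ A.charpoly.roots ↔ ∃ v : Fin n → ℝ, v ≠ 0 ∧ A *ᵥ v = μ • v := by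
  rw [Polynomial.mem_roots (Matrix.charpoly_monic A).ne_zero, ← Matrix.mem_spectrum_iff_isRoot_charpoly]
  rw [← Matrix.spectrum_toLin', ← Module.End.hasEigenvalue_iff_mem_spectrum]
  constructor
  · intro h
    obtain ⟨v, hv⟩ := h.exists_hasEigenvector
    refine ⟨v, hv.2, ?_⟩
    have := hv.apply_eq_smul
    rwa [Matrix.toLin'_apply] at this
  · rintro ⟨v, hv0, hv⟩
    apply Module.End.hasEigenvalue_of_hasEigenvector (x := v)
    refine ⟨?_, hv0⟩
    rw [Module.End.mem_eigenspace_iff, Matrix.toLin'_apply, hv]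

/-- Spectral statement. -/
lemma three_eigs {n : ℕ} (A : Matrix (Fin n) (Fin n) ℝ) (a : Fin n → ℝ) (κ : ℝ) (hκ : 1 < κ)
    (hn : 2 ≤ n) (hsymm : ∀ i j, A i j = A j i) (h01 : ∀ i j, A i j = 0 ∨ A i j = 1)
    (hdiag : ∀ i, A i i = 0)
    (ha : ∀ i, 0 < a i)
    (hsq : ∀ i j, ∑ w, A i w * A w j = (if i = j then κ ^ 2 else 0) + a i * a j) :
    A.charpoly.roots.toFinset.card = 3 := by
  classical
  have hκ0 : 0 < κ := by linarith
  -- the product form
  have hmul : ∀ (v : Fin n → ℝ), A *ᵥ (A *ᵥ v) = κ ^ 2 • v + (a ⬝ᵥ v) • a := by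
    intro v
    have hAA : A * A = κ ^ 2 • (1 : Matrix (Fin n) (Fin n) ℝ) + Matrix.vecMulVec a a := by
      ext i j
      rw [Matrix.mul_apply, hsq i j]
      simp [Matrix.one_apply, Matrix.vecMulVec_apply]
    rw [Matrix.mulVec_mulVec, hAA, Matrix.add_mulVec, Matrix.smul_mulVec, Matrix.one_mulVec]
    congr 1
    ext i
    simp only [Matrix.mulVec, dotProduct, Matrix.vecMulVec_apply, Pi.smul_apply, smul_eq_mul,
      Finset.sum_mul]
    apply Finset.sum_congr rfl
    intro j _
    ring
  -- symmetric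
  have hdot : ∀ v w : Fin n → ℝ, v ⬝ᵥ (A *ᵥ w) = (A *ᵥ v) ⬝ᵥ w := by
    intro v w
    have hT : Aᵀ = A := by
      ext i j
      rw [Matrix.transpose_apply]; exact hsymm j i
    rw [Matrix.dotProduct_mulVec, ← Matrix.mulVec_transpose, hT]
  set N : ℝ := a ⬝ᵥ a with hN
  have i0 : Fin n := ⟨0, by omega⟩
  have hNpos : 0 < N := by
    rw [hN]
    unfold dotProduct
    apply Finset.sum_pos
    · intro i _; exact mul_pos (ha i) (ha i)
    · exact ⟨i0, mem_univ _⟩
  -- the Perron vector
  set θ : ℝ := (a ⬝ᵥ (A *ᵥ a)) / N with hθ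
  have hAa : A *ᵥ a = θ • a := by
    -- compute A (A (A a)) in two ways
    have h1 : A *ᵥ (A *ᵥ (A *ᵥ a)) = κ ^ 2 • (A *ᵥ a) + N • (A *ᵥ a) := by
      rw [hmul a, Matrix.mulVec_add, Matrix.mulVec_smul, Matrix.mulVec_smul]
    have h2 : A *ᵥ (A *ᵥ (A *ᵥ a)) = κ ^ 2 • (A *ᵥ a) + (a ⬝ᵥ (A *ᵥ a)) • a := hmul (A *ᵥ a)
    have h3 : N • (A *ᵥ a) = (a ⬝ᵥ (A *ᵥ a)) • a := by
      rw [h1] at h2
      exact add_left_cancel h2
    rw [hθ]
    have h4 : (a ⬝ᵥ (A *ᵥ a)) = θ * N := by
      rw [hθ]; field_simp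
    rw [h4, mul_comm, mul_smul] at h3
    exact smul_right_injective _ hNpos.ne' h3
  have hθ2 : θ ^ 2 = κ ^ 2 + N := by
    have h1 := hmul a
    rw [hAa, Matrix.mulVec_smul, hAa, smul_smul] at h1
    have h2 := congrFun h1 i0
    simp only [Pi.smul_apply, Pi.add_apply, smul_eq_mul] at h2
    have h3 := (ha i0).ne'
    have h4 : (θ * θ - κ ^ 2 - N) * a i0 = 0 := by linear_combination h2
    rcases mul_eq_zero.mp h4 with h5 | h5
    · linear_combination h5
    · exact absurd h5 h3
  have hθpos : 0 < θ := by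
    have h1 : 0 ≤ θ := by
      rw [hθ]
      apply div_nonneg _ hNpos.le
      unfold dotProduct Matrix.mulVec dotProduct
      apply Finset.sum_nonneg
      intro i _
      apply mul_nonneg (ha i).le
      apply Finset.sum_nonneg
      intro j _
      apply mul_nonneg _ (ha j).le
      show 0 ≤ A i j
      rcases h01 i j with h | h <;> rw [h]
      exact zero_le_one
    rcases h1.lt_or_eq with h | h
    · exact h
    · exfalso
      rw [← h] at hθ2
      nlinarith [sq_nonneg κ]
  -- eigenvectors for κ and -κ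
  have i1 : Fin n := ⟨1, by omega⟩
  obtain ⟨i, j, hij⟩ : ∃ i j : Fin n, i ≠ j :=
    ⟨⟨0, by omega⟩, ⟨1, by omega⟩, by simp [Fin.ext_iff]⟩
  set w : Fin n → ℝ := fun l => (if l = i then a j else 0) - (if l = j then a i else 0) with hw
  have hwa : a ⬝ᵥ w = 0 := by
    simp only [hw, dotProduct, mul_sub, mul_ite, mul_zero]
    rw [Finset.sum_sub_distrib, Finset.sum_ite_eq' univ i, Finset.sum_ite_eq' univ j]
    simp
    ring
  have hAw : ∀ l, (A *ᵥ w) l = A l i * a j - A l j * a i := by
    intro l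
    simp only [hw, Matrix.mulVec, dotProduct, mul_sub, mul_ite, mul_zero]
    rw [Finset.sum_sub_distrib, Finset.sum_ite_eq' univ i, Finset.sum_ite_eq' univ j]
    simp
  have hAAw : A *ᵥ (A *ᵥ w) = κ ^ 2 • w := by
    rw [hmul w, hwa, zero_smul, add_zero]
  have hwi : w i = a j := by simp [hw, hij]
  have hwj : w j = - a i := by simp [hw, Ne.symm hij]
  have hroot1 : κ ∈ A.charpoly.roots := by
    rw [mem_roots_iff]
    refine ⟨A *ᵥ w + κ • w, ?_, ?_⟩
    · intro h0
      have h1 := congrFun h0 i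
      have h2 := congrFun h0 j
      simp only [Pi.add_apply, Pi.smul_apply, smul_eq_mul, Pi.zero_apply, hAw, hwi, hwj, hdiag] at h1 h2
      rw [hsymm j i] at h2
      have hai := ha i
      have haj := ha j
      rcases h01 i j with h | h
      · rw [h] at h1
        nlinarith
      · rw [h] at h1 h2
        nlinarith
    · rw [Matrix.mulVec_add, Matrix.mulVec_smul, hAAw, smul_add, smul_smul]
      rw [pow_two, add_comm]
  have hroot2 : -κ ∈ A.charpoly.roots := by
    rw [mem_roots_iff]
    refine ⟨A *ᵥ w - κ • w, ?_, ?_⟩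
    · intro h0
      have h1 := congrFun h0 i
      simp only [Pi.sub_apply, Pi.smul_apply, smul_eq_mul, Pi.zero_apply, hAw, hwi, hdiag] at h1
      have hai := ha i
      have haj := ha j
      rcases h01 i j with h | h
      · rw [h] at h1
        nlinarith
      · rw [h] at h1
        nlinarith
    · rw [Matrix.mulVec_sub, Matrix.mulVec_smul, hAAw, smul_sub, smul_smul]
      rw [neg_smul, neg_mul, neg_smul, ← pow_two]
      abel
  have hroot3 : θ ∈ A.charpoly.roots := by
    rw [mem_roots_iff]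
    refine ⟨a, ?_, hAa⟩
    intro h
    have := congrFun h i0
    have h2 := ha i0
    rw [this] at h2
    exact lt_irrefl _ h2
  have hall : A.charpoly.roots.toFinset = {θ, κ, -κ} := by
    ext μ
    rw [Multiset.mem_toFinset, mem_insert, mem_insert, mem_singleton]
    constructor
    · intro h
      obtain ⟨v, hv0, hv⟩ := (mem_roots_iff A μ).mp h
      by_cases hav : a ⬝ᵥ v = 0
      · right
        have h1 := hmul v
        rw [hav, zero_smul, add_zero, hv, Matrix.mulVec_smul, hv, smul_smul] at h1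
        obtain ⟨l, hl⟩ : ∃ l, v l ≠ 0 := by
          by_contra hcon
          push Not at hcon
          exact hv0 (funext hcon)
        have h2 := congrFun h1 l
        simp only [Pi.smul_apply, smul_eq_mul] at h2
        have h3 : (μ - κ) * (μ + κ) = 0 := by
          have h4 : ((μ - κ) * (μ + κ)) * v l = 0 := by linear_combination h2
          rcases mul_eq_zero.mp h4 with h5 | h5
          · exact h5
          · exact absurd h5 hl
        rcases mul_eq_zero.mp h3 with h5 | h5
        · left; linarith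
        · right; linarith
      · left
        have h1 : a ⬝ᵥ (A *ᵥ v) = (A *ᵥ a) ⬝ᵥ v := hdot a v
        rw [hv, hAa, dotProduct_smul, smul_dotProduct, smul_eq_mul, smul_eq_mul] at h1
        exact mul_right_cancel₀ hav h1
    · rintro (rfl | rfl | rfl)
      · exact hroot3
      · exact hroot1
      · exact hroot2
  rw [hall]
  have hθκ : κ < θ := by
    by_contra hcon
    push Not at hcon
    have : θ ^ 2 ≤ κ ^ 2 := by
      apply pow_le_pow_left₀ hθpos.le hcon
    linarith
  rw [Finset.card_insert_of_notMem, Finset.card_pair]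
  · intro h; linarith
  · rw [mem_insert, mem_singleton]
    rintro (h | h) <;> linarith

/-- Connectedness. -/
lemma conn_of_sq {n : ℕ} (G : SimpleGraph (Fin n)) [DecidableRel G.Adj] (hn : 1 ≤ n)
    (h : ∀ i j, i ≠ j → 0 < ∑ w, (if G.Adj i w then (1 : ℤ) else 0) * (if G.Adj j w then (1 : ℤ) else 0)) :
    G.Connected := by
  have : Nonempty (Fin n) := ⟨⟨0, by omega⟩⟩
  rw [SimpleGraph.connected_iff]
  refine ⟨?_, inferInstance⟩
  intro i j
  by_cases hij : i = j
  · rw [hij]
  · have h1 := h i j hij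
    obtain ⟨w, _, hw⟩ := Finset.exists_ne_zero_of_sum_ne_zero h1.ne'
    have h2 : G.Adj i w := by
      by_contra hc
      rw [if_neg hc, zero_mul] at hw
      exact hw rfl
    have h3 : G.Adj j w := by
      by_contra hc
      rw [if_neg hc, mul_zero] at hw
      exact hw rfl
    exact h2.reachable.trans h3.symm.reachable

end Pool.Agent.MP_7c9306
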