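import Mathlib
import Pool.Agent.Lib.MP_7c9306.GH
import Pool.Agent.Lib.MP_7c9306.Graph
import Pool.Agent.Lib.MP_7c9306.Spec

set_option autoImplicit false

/-!
MP_7c9306_co, part 5: assembly.
-/

namespace Pool.Agent.MP_7c9306

open Finset

/-- In a field with `2^(2s+1)` elements cubing is injective. -/
lemma cube_inj {F : Type} [Field F] [Fintype F] (s : ℕ) (hF : Fintype.card F = 2 ^ (2 * s + 1)) :
    Function.Injective (fun x : F => x ^ 3) := by
  intro x y h
  have h : x ^ 3 = y ^ 3 := h
  by_cases hy : y = 0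
  · rw [hy] at h ⊢
    have : x ^ 3 = 0 := by rw [h]; norm_num
    exact pow_eq_zero_iff (n := 3) (by norm_num) |>.mp this
  · have h3 : (x / y) ^ 3 = 1 := by
      rw [div_pow, h, div_self (pow_ne_zero 3 hy)]
    have hxy : x / y ≠ 0 := by
      intro h0
      rw [h0] at h3
      norm_num at h3
    have hc : (x / y) ^ (Fintype.card F - 1) = 1 := FiniteField.pow_card_sub_one_eq_one _ hxy
    have hmod : (2 ^ (2 * s + 1) - 1) % 3 = 1 := by
      have h4 : (4 ^ s) % 3 = 1 := by
        rw [Nat.pow_mod]; norm_num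
      have h5 : 2 ^ (2 * s + 1) = 2 * 4 ^ s := by
        rw [pow_succ, pow_mul]; norm_num; ring
      rw [h5]
      omega
    have hgcd : (x / y) ^ (Nat.gcd 3 (Fintype.card F - 1)) = 1 := by
      rw [hF]
      rw [hF] at hc
      exact pow_gcd_eq_one.mpr ⟨h3, hc⟩
    have h6 : Nat.gcd 3 (Fintype.card F - 1) = 1 := by
      rw [hF]
      have : Nat.Coprime 3 (2 ^ (2 * s + 1) - 1) := by
        rw [Nat.Prime.coprime_iff_not_dvd Nat.prime_three]
        omega
      exact this
    rw [h6, pow_one] at hgcd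
    exact (div_eq_one_iff_eq hy).mp hgcd

/-- The labelling exists for every `s ≥ 1`. -/
lemma exists_lab (s : ℕ) (hs : 1 ≤ s) :
    ∃ (C : Type) (_ : Fintype C) (_ : DecidableEq C), Nonempty (Lab (2 * s) C) := by
  classical
  have : Fact (Nat.Prime 2) := ⟨Nat.prime_two⟩
  let F := GaloisField 2 (2 * s + 1)
  have : Fintype F := Fintype.ofFinite F
  have hF : Fintype.card F = 2 ^ (2 * s + 1) := by
    rw [← Nat.card_eq_fintype_card]
    exact GaloisField.card 2 (2 * s + 1) (by omega)
  have hc := cube_inj (F := F) s hF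
  have hrank : Module.finrank (ZMod 2) F = Module.finrank (ZMod 2) (U (2 * s) × ZMod 2) := by
    rw [GaloisField.finrank 2 (by omega : 2 * s + 1 ≠ 0)]
    rw [Module.finrank_prod, Module.finrank_fin_fun, Module.finrank_self]
  let φ : F ≃ₗ[ZMod 2] U (2 * s) × ZMod 2 := LinearEquiv.ofFinrankEq _ _ hrank
  refine ⟨F × Bool, inferInstance, inferInstance, ⟨?_⟩⟩
  refine
    { L := fun c d => φ (ell c d) + (fun _ => 1, 0)
      symm := ?_
      p0 := fun _ => 1
      p0ne := ?_
      diag := ?_
      count := ?_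
      cardC := ?_ }
  · intro c d
    rw [ell_symm]
  · intro h
    have h1 : (1 : ZMod 2) = 0 := congrFun h ⟨0, by omega⟩
    exact one_ne_zero h1
  · intro c
    rw [ell_self, map_zero, zero_add]
  · intro c e hce w
    refine Eq.trans ?_ (ell_count hc c e hce (φ.symm w))
    congr 1
    ext d
    simp only [mem_filter, mem_univ, true_and]
    have h1 : φ (ell c d) + ((fun _ => 1, 0) : U (2 * s) × ZMod 2) + (φ (ell e d) + (fun _ => 1, 0))
        = φ (ell c d + ell e d) := by
      rw [map_add]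
      have h2 : ((fun _ => 1, 0) : U (2 * s) × ZMod 2) + (fun _ => 1, 0) = 0 := by
        ext1
        · exact u_add_self _
        · simp
      have h3 : φ (ell c d) + ((fun _ => 1, 0) : U (2 * s) × ZMod 2) + (φ (ell e d) + (fun _ => 1, 0))
          = φ (ell c d) + φ (ell e d) + (((fun _ => 1, 0) : U (2 * s) × ZMod 2) + (fun _ => 1, 0)) := by
        abel
      rw [h3, h2, add_zero]
    rw [h1]
    constructor
    · intro h
      rw [← h, LinearEquiv.symm_apply_apply]
    · intro h
      rw [h, LinearEquiv.apply_symm_apply]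
  · rw [Fintype.card_prod, hF, Fintype.card_bool]
    ring

/-- The graphs, one for every `s ≥ 1`. -/
theorem main_s (s : ℕ) (hs : 1 ≤ s) :
    ∃ n : ℕ, s ≤ n ∧ ∃ G : SimpleGraph (Fin n), ∃ _inst : DecidableRel G.Adj,
      G.Connected ∧
      (Finset.univ.image (fun v => G.degree v)).card = 3 ∧
      (G.adjMatrix ℝ).charpoly.roots.toFinset.card = 3 := by
  obtain ⟨C, iF, iD, ⟨S⟩⟩ := exists_lab s hs
  have hcardC : Fintype.card C = Fintype.card (U (2 * s + 2)) := by
    rw [S.cardC, card_U, pow_add]; ring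
  let ψ : C ≃ U (2 * s + 2) := Fintype.equivOfCardEq hcardC
  let g : ℤ := 2 ^ s
  have hgdef : g = 2 ^ s := rfl
  have hg : g ^ 2 = 2 ^ (2 * s) := by
    rw [hgdef, ← pow_mul, mul_comm]
  have hg2 : 2 ≤ g := by
    rw [hgdef]
    calc (2 : ℤ) = 2 ^ 1 := by norm_num
      _ ≤ 2 ^ s := pow_le_pow_right₀ (by norm_num) hs
  have hgs : (s : ℤ) < g := by
    rw [hgdef]
    exact_mod_cast Nat.lt_two_pow_self
  clear_value g
  let n := Fintype.card (VV (2 * s) C)
  have hn : (n : ℤ) = 4 * g ^ 6 + 4 * g ^ 2 - 1 := card_VV S g hg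
  let e : VV (2 * s) C ≃ Fin n := Fintype.equivFin _
  have hg6 : g ≤ g ^ 6 := by
    nlinarith [pow_pos (show (0:ℤ) < g by linarith) 5, pow_le_pow_right₀ (show (1:ℤ) ≤ g by linarith) (show 1 ≤ 6 by norm_num)]
  have hnbig : (s : ℤ) ≤ n := by
    rw [hn]
    nlinarith [sq_nonneg g]
  have hn2 : (2 : ℤ) ≤ n := by
    rw [hn]
    nlinarith [sq_nonneg g]
  let G : SimpleGraph (Fin n) := (S.G ψ).comap e.symm
  have hadj : ∀ i j, G.Adj i j ↔ (S.G ψ).Adj (e.symm i) (e.symm j) := fun i j => Iff.rfl
  let inst : DecidableRel G.Adj := fun i j => decidable_of_iff _ (hadj i j).symm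
  let a : Fin n → ℤ := fun i => aa ψ g (e.symm i)
  have hsq : ∀ i j, ∑ w, (if G.Adj i w then (1 : ℤ) else 0) * (if G.Adj j w then (1 : ℤ) else 0)
      = (if i = j then g ^ 6 else 0) + a i * a j := by
    intro i j
    have h1 := G_sq S ψ g hg (e.symm i) (e.symm j)
    have h2 : (e.symm i = e.symm j) = (i = j) := propext e.symm.injective.eq_iff
    simp only [h2] at h1
    rw [← h1]
    rw [← Equiv.sum_comp e.symm (fun w => (if (S.G ψ).Adj (e.symm i) w then (1 : ℤ) else 0) *
      (if (S.G ψ).Adj (e.symm j) w then (1 : ℤ) else 0))]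
    apply Finset.sum_congr rfl
    intro w _
    simp only [hadj]
  have hg3 : g < g ^ 3 := by nlinarith [sq_nonneg (g - 1)]
  have hapos : ∀ i, 0 < a i := by
    intro i
    show 0 < aa ψ g (e.symm i)
    rcases e.symm i with u | p
    · show 0 < g ^ 3
      linarith
    · show 0 < g ^ 3 + DD ψ p.1 * g
      rcases DD_pm ψ p.1 with h | h <;> rw [h] <;> linarith
  refine ⟨n, by exact_mod_cast hnbig, G, inst, ?_, ?_, ?_⟩
  · apply conn_of_sq G (by
      have : (1 : ℤ) ≤ n := by linarith
      exact_mod_cast this)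
    intro i j hij
    rw [hsq, if_neg hij, zero_add]
    exact mul_pos (hapos i) (hapos j)
  · -- degrees
    have hdeg : ∀ i, (G.degree i : ℤ) = g ^ 6 + a i ^ 2 := by
      intro i
      have h1 := hsq i i
      rw [if_pos rfl] at h1
      have h2 : (G.degree i : ℤ) = ∑ w, (if G.Adj i w then (1 : ℤ) else 0) * (if G.Adj i w then (1 : ℤ) else 0) := by
        rw [← SimpleGraph.card_neighborFinset_eq_degree, SimpleGraph.neighborFinset_eq_filter]
        rw [Finset.card_filter]
        push_cast
        apply Finset.sum_congr rfl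
        intro w _
        by_cases h : G.Adj i w
        · simp [h]
        · simp [h]
      rw [h2, h1]; ring
    have himg : ((Finset.univ.image (fun v => G.degree v)).image (fun d : ℕ => (d : ℤ)))
        = {g ^ 6 + (g ^ 3) ^ 2, g ^ 6 + (g ^ 3 + g) ^ 2, g ^ 6 + (g ^ 3 - g) ^ 2} := by
      rw [Finset.image_image]
      ext z
      simp only [mem_image, mem_univ, true_and, Function.comp, mem_insert, mem_singleton]
      constructor
      · rintro ⟨i, rfl⟩
        rw [hdeg]
        show g ^ 6 + (aa ψ g (e.symm i)) ^ 2 = _ ∨ g ^ 6 + (aa ψ g (e.symm i)) ^ 2 = _ ∨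
          g ^ 6 + (aa ψ g (e.symm i)) ^ 2 = _
        rcases e.symm i with u | p
        · left; rfl
        · right
          show g ^ 6 + (g ^ 3 + DD ψ p.1 * g) ^ 2 = _ ∨ g ^ 6 + (g ^ 3 + DD ψ p.1 * g) ^ 2 = _
          rcases DD_pm ψ p.1 with h | h
          · left; rw [h]; ring
          · right; rw [h]; ring
      · have key : ∀ u : VV (2 * s) C, ((G.degree (e u) : ℕ) : ℤ) = g ^ 6 + (aa ψ g u) ^ 2 := by
          intro u
          rw [hdeg]
          show g ^ 6 + (aa ψ g (e.symm (e u))) ^ 2 = _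
          rw [Equiv.symm_apply_apply]
        have hone : ((fun _ => 1 : U (2 * s + 2)) : U (2 * s + 2)) ≠ 0 := by
          intro h
          have h1 : (1 : ZMod 2) = 0 := congrFun h ⟨0, by omega⟩
          exact absurd h1 (by decide)
        rintro (h | h | h)
        · refine ⟨e (Sum.inl ⟨fun _ => 1, hone⟩), ?_⟩
          rw [key, h]; rfl
        · refine ⟨e (Sum.inr (ψ.symm (fun _ => 1), 0)), ?_⟩
          rw [key, h]
          show g ^ 6 + (g ^ 3 + DD ψ (ψ.symm (fun _ => 1)) * g) ^ 2 = _
          unfold DD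
          rw [Equiv.apply_symm_apply, if_neg hone]
          ring
        · refine ⟨e (Sum.inr (ψ.symm 0, 0)), ?_⟩
          rw [key, h]
          show g ^ 6 + (g ^ 3 + DD ψ (ψ.symm 0) * g) ^ 2 = _
          unfold DD
          rw [Equiv.apply_symm_apply, if_pos rfl]
          ring
    have hcard : ((Finset.univ.image (fun v => G.degree v)).image (fun d : ℕ => (d : ℤ))).card
        = (Finset.univ.image (fun v => G.degree v)).card :=
      Finset.card_image_of_injective _ Nat.cast_injective
    rw [← hcard, himg]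
    rw [Finset.card_insert_of_notMem, Finset.card_pair]
    · intro h
      nlinarith
    · rw [mem_insert, mem_singleton]
      rintro (h | h)
      · nlinarith
      · nlinarith
  · -- eigenvalues
    have h01 : ∀ i j, (G.adjMatrix ℝ) i j = 0 ∨ (G.adjMatrix ℝ) i j = 1 := by
      intro i j
      rw [SimpleGraph.adjMatrix_apply]
      split_ifs <;> simp
    have hsymm : ∀ i j, (G.adjMatrix ℝ) i j = (G.adjMatrix ℝ) j i := by
      intro i j
      rw [SimpleGraph.adjMatrix_apply, SimpleGraph.adjMatrix_apply]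
      simp only [G.adj_comm]
    apply three_eigs (G.adjMatrix ℝ) (fun i => (a i : ℝ)) ((g : ℝ) ^ 3) ?_ ?_ hsymm h01 ?_ ?_ ?_
    · have : (2 : ℝ) ≤ g := by exact_mod_cast hg2
      calc (1 : ℝ) < 2 ^ 3 := by norm_num
        _ ≤ (g : ℝ) ^ 3 := pow_le_pow_left₀ (by norm_num) this 3
    · exact_mod_cast hn2
    · intro i
      rw [SimpleGraph.adjMatrix_apply, if_neg (G.loopless.irrefl i)]
    · intro i
      exact_mod_cast hapos i
    · intro i j
      have h1 : ∑ w, (G.adjMatrix ℝ) i w * (G.adjMatrix ℝ) w j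
          = ((∑ w, (if G.Adj i w then (1 : ℤ) else 0) * (if G.Adj j w then (1 : ℤ) else 0) : ℤ) : ℝ) := by
        push_cast
        apply Finset.sum_congr rfl
        intro w _
        rw [hsymm w j, SimpleGraph.adjMatrix_apply, SimpleGraph.adjMatrix_apply]
      rw [h1, hsq]
      push_cast
      by_cases h : i = j
      · rw [if_pos h, if_pos h]; ring
      · rw [if_neg h, if_neg h]

end Pool.Agent.MP_7c9306
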